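import Pool.Agent.H51.CYC.Proof

/-!
# Covering the nonzero residues mod `4k+1` by cyclic consecutive sums

For every `k > 2` there is a cyclic sequence `x 0, ..., x (k-1)` of nonzero residues mod `4k+1`
such that the residues `± x i`, `± (x i + x (i+1))` cover all nonzero residues, and such that
the sum of the sequence is coprime to `4k+1`.
-/

set_option autoImplicit false

namespace Pool.Agent.Results.MP_a9ea17_co.CyclicCover

/-- **Q1 holds for every `k > 2`.** -/
theorem result (k : ℕ) (hk : 2 < k) :
    ∃ x : ℕ → ZMod (4 * k + 1),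
      (∀ i < k, x i ≠ 0) ∧
      {z : ZMod (4 * k + 1) | z ≠ 0} =
        ⋃ i ∈ Finset.range k, {x i, -x i, x i + x ((i + 1) % k), -(x i + x ((i + 1) % k))} ∧
      Nat.Coprime (∑ i ∈ Finset.range k, x i).val (4 * k + 1) :=
  main k hk

end Pool.Agent.Results.MP_a9ea17_co.CyclicCover
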